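import Mathlib
import Pool.Agent.W99.CA.Defs
import Pool.Agent.W99.CA.Main

/-!
# MP_944d6d_mp: reversible three-state number-conserving cellular automata are trivial

For every `d ≥ 1`, every cellular automaton on `ℤ^d` with state set `{0, 1, 2}`, the von Neumann
neighbourhood, which is number-conserving and injective (in particular every reversible one) is
the identity or one of the `2d` unit shifts.

Proof outline. Configurations which depend on one coordinate only give a one-dimensional rule of
radius one, which is again injective and number-conserving; there are 144 number-conserving ones,
and all but the identity and the two shifts have two different cyclic words of length four with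
the same image (eight pairs of words suffice). Configurations which depend on two coordinates
only give a two-dimensional rule; writing out the conservation law for a few configurations
supported on at most five cells and using that all values are nonnegative one finds that this rule
is trivial. Finally the conservation law on `(ℤ/5)^d` for a configuration which is constant
outside one neighbourhood determines a rule from its values on the patterns which are constant
outside two directions.
-/

set_option autoImplicit false

namespace Pool.Agent.Results.MP_944d6d_mp.ReversibleTrivial

open Pool.Agent.W99.CA

/-- **Q1 holds in every dimension.** A number-conserving cellular automaton on `ℤ^d`, `d ≥ 1`,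
with states `{0, 1, 2}` and the von Neumann neighbourhood, whose global map is injective (in
particular every reversible one), is the identity or a shift by a unit vector. -/
theorem result (d : ℕ) (hd : 1 ≤ d) (f : (Nb d → Fin 3) → Fin 3)
    (hcons : NumberConserving (glob f)) (hinj : Function.Injective (glob f)) :
    (∀ x, glob f x = x) ∨
      ∃ (i : Fin d) (s : Bool), ∀ x v, glob f x v = x (v + nb (some (i, s))) := by
  have : NeZero d := ⟨by omega⟩
  obtain ⟨u0, h⟩ := main f hcons hinj
  rcases u0 with _ | ⟨i, s⟩
  · left
    intro x
    funext v
    unfold glob
    rw [h]
    simp [nb]
  · right
    refine ⟨i, s, fun x v => ?_⟩
    unfold glob
    rw [h]

end Pool.Agent.Results.MP_944d6d_mp.ReversibleTrivial
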